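import Mathlib

/-!
For every `d ≥ 3` some nonempty set of monic real polynomials of degree `d`, fixed by the numbers
of positive and negative roots of the polynomial and of all its derivatives, is disconnected.
-/

namespace Pool.Agent.Results.MP_5207c4_ag.RootCounts

open Polynomial Filter Topology

/-- The monic polynomial of degree `d` with coefficients `a 0, …, a (d - 1)`. -/
noncomputable def Q {d : ℕ} (a : Fin d → ℝ) : ℝ[X] :=
  X ^ d + ∑ j : Fin d, C (a j) * X ^ (j : ℕ)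

/-- The derivative of order `l` of `Q a`. -/
noncomputable def D {d : ℕ} (a : Fin d → ℝ) (l : ℕ) : ℝ[X] := derivative^[l] (Q a)

/-- The set of all `a` such that all coefficients `a j` are nonzero and, for every `l < d`,
every real root of the derivative of order `l` of `Q a` is simple and nonzero. -/
def R4 (d : ℕ) : Set (Fin d → ℝ) :=
  {a | (∀ j, a j ≠ 0) ∧
    ∀ l < d, ∀ x : ℝ, (D a l).eval x = 0 → x ≠ 0 ∧ (D a (l + 1)).eval x ≠ 0}

/-- The number of positive roots of the derivative of order `l` of `Q a`. -/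
noncomputable def pos {d : ℕ} (a : Fin d → ℝ) (l : ℕ) : ℕ :=
  Set.ncard {x : ℝ | 0 < x ∧ (D a l).eval x = 0}

/-- The number of negative roots of the derivative of order `l` of `Q a`. -/
noncomputable def neg {d : ℕ} (a : Fin d → ℝ) (l : ℕ) : ℕ :=
  Set.ncard {x : ℝ | x < 0 ∧ (D a l).eval x = 0}

/-- The set of the `a` in `R4 d` for which the numbers of positive and negative roots of the
derivatives of order `0, …, d - 1` are prescribed by `τ`. -/
def R4τ {d : ℕ} (τ : Fin d → ℕ × ℕ) : Set (Fin d → ℝ) :=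
  {a | a ∈ R4 d ∧ ∀ l : Fin d, (pos a l, neg a l) = τ l}

/-- coefficients of the normalised derivative -/
noncomputable def δ {d : ℕ} (c : Fin (d + 1) → ℝ) : Fin d → ℝ :=
  fun j => ((j : ℝ) + 1) / (d + 1) * c j.succ

theorem continuous_δ {d : ℕ} : Continuous (δ (d := d)) := by
  unfold δ
  fun_prop

theorem derivative_Q {d : ℕ} (c : Fin (d + 1) → ℝ) :
    derivative (Q c) = C ((d : ℝ) + 1) * Q (δ c) := by
  unfold Q δ
  rw [derivative_add, derivative_X_pow, Fin.sum_univ_succ, derivative_add, derivative_sum]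
  have hd : ((d : ℝ) + 1) ≠ 0 := by positivity
  simp only [Fin.val_zero, pow_zero, mul_one, derivative_C, zero_add, Fin.val_succ,
    derivative_C_mul, derivative_X_pow, Nat.cast_add, Nat.cast_one, Nat.add_sub_cancel]
  rw [mul_add, Finset.mul_sum]
  congr 1
  refine Finset.sum_congr rfl fun j _ => ?_
  rw [← mul_assoc, ← mul_assoc, ← C_mul, ← C_mul]
  congr 2
  field_simp

theorem D_succ {d : ℕ} (c : Fin (d + 1) → ℝ) (l : ℕ) :
    D c (l + 1) = C ((d : ℝ) + 1) * D (δ c) l := by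
  unfold D
  rw [Function.iterate_succ_apply, derivative_Q, iterate_derivative_C_mul]

theorem D_zero {d : ℕ} (c : Fin d → ℝ) : D c 0 = Q c := rfl

theorem eval_D_succ {d : ℕ} (c : Fin (d + 1) → ℝ) (l : ℕ) (x : ℝ) :
    (D c (l + 1)).eval x = 0 ↔ (D (δ c) l).eval x = 0 := by
  rw [D_succ, eval_mul, eval_C, mul_eq_zero]
  have hd : ((d : ℝ) + 1) ≠ 0 := by positivity
  simp [hd]

theorem pos_succ {d : ℕ} (c : Fin (d + 1) → ℝ) (l : ℕ) : pos c (l + 1) = pos (δ c) l := by
  unfold pos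
  simp only [eval_D_succ]

theorem neg_succ {d : ℕ} (c : Fin (d + 1) → ℝ) (l : ℕ) : neg c (l + 1) = neg (δ c) l := by
  unfold neg
  simp only [eval_D_succ]

theorem δ_mem_R4 {d : ℕ} {c : Fin (d + 1) → ℝ} (h : c ∈ R4 (d + 1)) : δ c ∈ R4 d := by
  refine ⟨fun j => ?_, fun l hl x hx => ?_⟩
  · have := h.1 j.succ
    unfold δ
    have hj : ((j : ℝ) + 1) / (d + 1) ≠ 0 := by positivity
    exact mul_ne_zero hj this
  · have h1 := h.2 (l + 1) (by omega) x ((eval_D_succ c l x).mpr hx)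
    exact ⟨h1.1, fun h2 => h1.2 ((eval_D_succ c (l + 1) x).mpr h2)⟩

theorem δ_mem {d : ℕ} {c : Fin (d + 1) → ℝ} {t : ℕ × ℕ} {τ : Fin d → ℕ × ℕ}
    (h : c ∈ R4τ (Fin.cons t τ : Fin (d + 1) → ℕ × ℕ)) : δ c ∈ R4τ τ := by
  refine ⟨δ_mem_R4 h.1, fun l => ?_⟩
  have := h.2 l.succ
  rw [Fin.cons_succ, Fin.val_succ, pos_succ, neg_succ] at this
  exact this

/-- a point above `a` -/
noncomputable def lift {d : ℕ} (k : ℝ) (a : Fin d → ℝ) : Fin (d + 1) → ℝ :=
  Fin.cons k (fun j => ((d : ℝ) + 1) / ((j : ℝ) + 1) * a j)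

theorem δ_lift {d : ℕ} (k : ℝ) (a : Fin d → ℝ) : δ (lift k a) = a := by
  funext j
  unfold δ lift
  rw [Fin.cons_succ]
  have h1 : ((d : ℝ) + 1) ≠ 0 := by positivity
  have h2 : ((j : ℝ) + 1) ≠ 0 := by positivity
  field_simp

theorem Q_lift {d : ℕ} (k : ℝ) (a : Fin d → ℝ) : Q (lift k a) = Q (lift 0 a) + C k := by
  unfold Q lift
  rw [Fin.sum_univ_succ, Fin.sum_univ_succ]
  simp only [Fin.cons_zero, Fin.cons_succ, Fin.val_zero, pow_zero, mul_one, C_0, zero_add]
  ring

theorem lift_mem {d : ℕ} {k : ℝ} {a : Fin d → ℝ} {t : ℕ × ℕ} {τ : Fin d → ℕ × ℕ}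
    (ha : a ∈ R4τ τ) (hk : k ≠ 0)
    (hr : ∀ x : ℝ, (Q (lift k a)).eval x = 0 → x ≠ 0 ∧ (Q a).eval x ≠ 0)
    (ht : (pos (lift k a) 0, neg (lift k a) 0) = t) :
    lift k a ∈ R4τ (Fin.cons t τ : Fin (d + 1) → ℕ × ℕ) := by
  have hd : δ (lift k a) = a := δ_lift k a
  refine ⟨⟨fun j => ?_, fun l hl x hx => ?_⟩, fun l => ?_⟩
  · refine Fin.cases ?_ (fun j => ?_) j
    · exact hk
    · show ((d : ℝ) + 1) / ((j : ℝ) + 1) * a j ≠ 0
      exact mul_ne_zero (by positivity) (ha.1.1 j)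
  · rcases l with _ | l
    · have h1 := hr x hx
      refine ⟨h1.1, fun h2 => h1.2 ?_⟩
      rw [eval_D_succ, hd] at h2
      exact h2
    · rw [eval_D_succ, hd] at hx
      have h1 := ha.1.2 l (by omega) x hx
      refine ⟨h1.1, fun h2 => h1.2 ?_⟩
      rw [eval_D_succ, hd] at h2
      exact h2
  · refine Fin.cases ?_ (fun l => ?_) l
    · exact ht
    · rw [Fin.cons_succ, Fin.val_succ, pos_succ, neg_succ, hd]
      exact ha.2 l

theorem degree_sum_lt {d : ℕ} (a : Fin d → ℝ) :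
    (∑ j : Fin d, C (a j) * X ^ (j : ℕ)).degree < (d : WithBot ℕ) := by
  rw [degree_lt_iff_coeff_zero]
  intro m hm
  rw [finsetSum_coeff]
  refine Finset.sum_eq_zero fun j _ => ?_
  rw [coeff_C_mul, coeff_X_pow, if_neg (by omega), mul_zero]

theorem monic_Q {d : ℕ} (a : Fin d → ℝ) : (Q a).Monic :=
  monic_X_pow_add (degree_sum_lt a)

theorem natDegree_Q {d : ℕ} (a : Fin d → ℝ) : (Q a).natDegree = d := by
  unfold Q
  rw [natDegree_add_eq_left_of_degree_lt (by rw [degree_X_pow]; exact degree_sum_lt a),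
    natDegree_X_pow]

theorem tendsto_atTop_of_monic {F : ℝ[X]} (hF : F.Monic) (hd : 0 < F.natDegree) :
    Tendsto (fun x => F.eval x) atTop atTop :=
  tendsto_atTop_of_leadingCoeff_nonneg F (natDegree_pos_iff_degree_pos.mp hd)
    (by rw [hF.leadingCoeff]; norm_num)

theorem tendsto_atBot_even {F : ℝ[X]} (hF : F.Monic) (hd : 0 < F.natDegree)
    (he : Even F.natDegree) : Tendsto (fun x => F.eval x) atBot atTop := by
  have h1 : (F.comp (-X)).leadingCoeff = 1 := by
    rw [leadingCoeff_comp (by simp), hF.leadingCoeff, one_mul, leadingCoeff_neg, leadingCoeff_X,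
      he.neg_one_pow]
  have h2 : (F.comp (-X)).natDegree = F.natDegree := by
    rw [natDegree_comp, natDegree_neg, natDegree_X, mul_one]
  have h3 := tendsto_atTop_of_monic (F := F.comp (-X)) h1 (by rw [h2]; exact hd)
  have h4 := h3.comp tendsto_neg_atBot_atTop
  refine h4.congr fun x => ?_
  simp [eval_comp]

theorem tendsto_atBot_odd {F : ℝ[X]} (hF : F.Monic)
    (he : Odd F.natDegree) : Tendsto (fun x => F.eval x) atBot atBot := by
  have hd : 0 < F.natDegree := he.pos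
  have h1 : (-F.comp (-X)).leadingCoeff = 1 := by
    rw [leadingCoeff_neg, leadingCoeff_comp (by simp), hF.leadingCoeff, one_mul,
      leadingCoeff_neg, leadingCoeff_X, he.neg_one_pow]
    norm_num
  have h2 : (-F.comp (-X)).natDegree = F.natDegree := by
    rw [natDegree_neg, natDegree_comp, natDegree_neg, natDegree_X, mul_one]
  have h3 := tendsto_atTop_of_monic (F := -F.comp (-X)) h1 (by rw [h2]; exact hd)
  have h4 := tendsto_neg_atTop_atBot.comp (h3.comp tendsto_neg_atBot_atTop)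
  refine h4.congr fun x => ?_
  simp [eval_comp]

/-- even degree: all large constants kill all the roots -/
theorem even_case {F : ℝ[X]} (hF : F.Monic) (hd : 0 < F.natDegree) (he : Even F.natDegree) :
    ∃ M : ℝ, ∀ k, M < k → ∀ x, 0 < (F + C k).eval x := by
  obtain ⟨u, hu⟩ := eventually_atTop.mp
    ((tendsto_atTop_of_monic hF hd).eventually (eventually_ge_atTop 0))
  obtain ⟨v, hv⟩ := eventually_atBot.mp
    ((tendsto_atBot_even hF hd he).eventually (eventually_ge_atTop 0))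
  obtain ⟨m, hm⟩ := (isCompact_Icc (a := v) (b := u)).bddBelow_image
    (F.continuous.continuousOn)
  refine ⟨max 0 (-m), fun k hk x => ?_⟩
  rw [eval_add, eval_C]
  have k0 : 0 < k := lt_of_le_of_lt (le_max_left _ _) hk
  have k1 : -m < k := lt_of_le_of_lt (le_max_right _ _) hk
  by_cases h1 : u ≤ x
  · have := hu x h1
    linarith
  · by_cases h2 : x ≤ v
    · have := hv x h2
      linarith
    · have := hm (Set.mem_image_of_mem _ ⟨(not_le.mp h2).le, (not_le.mp h1).le⟩)
      linarith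

/-- odd degree: for all very negative constants there is exactly one root, it is positive and
simple -/
theorem odd_case {F : ℝ[X]} (hF : F.Monic) (he : Odd F.natDegree) (h3 : 1 < F.natDegree) :
    ∃ M : ℝ, ∀ k, k < M → (∃ x, 0 < x ∧ (F + C k).eval x = 0) ∧
      (∀ x, (F + C k).eval x = 0 → 0 < x ∧ (derivative F).eval x ≠ 0) ∧
      (∀ x y, (F + C k).eval x = 0 → (F + C k).eval y = 0 → x = y) := by
  have hd : 0 < F.natDegree := he.pos
  have hder : Tendsto (fun x => (derivative F).eval x) atTop atTop := by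
    refine tendsto_atTop_of_leadingCoeff_nonneg _ ?_ ?_
    · rw [← natDegree_pos_iff_degree_pos, natDegree_derivative]
      omega
    · rw [leadingCoeff_derivative, hF.leadingCoeff, one_mul]
      positivity
  obtain ⟨u0, hu0⟩ := eventually_atTop.mp (hder.eventually (eventually_gt_atTop 0))
  set u := max u0 1 with hu
  have hupos : 0 < u := lt_of_lt_of_le one_pos (le_max_right _ _)
  have hder' : ∀ x, u ≤ x → 0 < (derivative F).eval x := fun x hx =>
    hu0 x ((le_max_left _ _).trans hx)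
  obtain ⟨v, hv⟩ := eventually_atBot.mp
    ((tendsto_atBot_odd hF he).eventually (eventually_le_atBot 0))
  obtain ⟨m, hm⟩ := (isCompact_Icc (a := v) (b := u)).bddAbove_image
    (F.continuous.continuousOn)
  have hmono : StrictMonoOn (fun x => F.eval x) (Set.Ici u) := by
    refine strictMonoOn_of_deriv_pos (convex_Ici u) F.continuous.continuousOn fun x hx => ?_
    rw [interior_Ici] at hx
    rw [Polynomial.deriv]
    exact hder' x (le_of_lt hx)
  refine ⟨min 0 (-m), fun k hk => ?_⟩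
  have k0 : k < 0 := lt_of_lt_of_le hk (min_le_left _ _)
  have k1 : k < -m := lt_of_lt_of_le hk (min_le_right _ _)
  have hneg : ∀ x, x ≤ u → F.eval x + k < 0 := by
    intro x hx
    by_cases h2 : x ≤ v
    · have := hv x h2
      linarith
    · have := hm (Set.mem_image_of_mem _ ⟨(not_le.mp h2).le, hx⟩)
      linarith
  have hroot : ∀ x, (F + C k).eval x = 0 → u < x := by
    intro x hx
    by_contra h
    have := hneg x (not_lt.mp h)
    rw [eval_add, eval_C] at hx
    linarith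
  refine ⟨?_, fun x hx => ⟨hupos.trans (hroot x hx), (hder' x (hroot x hx).le).ne'⟩,
    fun x y hx hy => ?_⟩
  · obtain ⟨w, hw1, hw2⟩ := ((tendsto_atTop_of_monic hF hd).eventually
      (eventually_gt_atTop (-k))).and (eventually_ge_atTop u) |>.exists
    obtain ⟨z, hz, hz0⟩ := intermediate_value_Icc hw2 (F.continuous.continuousOn)
      (show -k ∈ Set.Icc (F.eval u) (F.eval w) from
        ⟨by have := hneg u le_rfl; linarith, le_of_lt hw1⟩)
    refine ⟨z, lt_of_lt_of_le hupos hz.1, ?_⟩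
    rw [eval_add, eval_C]
    simp only at hz0
    linarith
  · have h1 := hroot x hx
    have h2 := hroot y hy
    rw [eval_add, eval_C] at hx hy
    exact hmono.injOn (Set.mem_Ici.mpr h1.le) (Set.mem_Ici.mpr h2.le)
      (by show F.eval x = F.eval y; linarith)

/-- two points which no preconnected subset joins -/
def Sep (d : ℕ) : Prop :=
  ∃ τ : Fin d → ℕ × ℕ, ∃ a b, a ∈ R4τ τ ∧ b ∈ R4τ τ ∧
    ∀ T ⊆ R4τ τ, IsPreconnected T → a ∈ T → b ∉ T

theorem sep_step {d : ℕ} (hd : 1 ≤ d) (h : Sep d) : Sep (d + 1) := by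
  obtain ⟨τ, a, b, ha, hb, hT⟩ := h
  suffices H : ∃ t : ℕ × ℕ, ∃ k : ℝ,
      lift k a ∈ R4τ (Fin.cons t τ : Fin (d + 1) → ℕ × ℕ) ∧
      lift k b ∈ R4τ (Fin.cons t τ : Fin (d + 1) → ℕ × ℕ) by
    obtain ⟨t, k, h1, h2⟩ := H
    refine ⟨_, _, _, h1, h2, fun T hTs hTc haT hbT => ?_⟩
    refine hT (δ '' T) ?_ (hTc.image _ continuous_δ.continuousOn) ⟨_, haT, δ_lift k a⟩
      ⟨_, hbT, δ_lift k b⟩
    rintro _ ⟨c, hc, rfl⟩
    exact δ_mem (hTs hc)
  have hder : ∀ c : Fin d → ℝ, derivative (Q (lift 0 c)) = C ((d : ℝ) + 1) * Q c := by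
    intro c
    rw [derivative_Q, δ_lift]
  have hder0 : ∀ (c : Fin d → ℝ) (x : ℝ), (derivative (Q (lift 0 c))).eval x ≠ 0 →
      (Q c).eval x ≠ 0 := by
    intro c x h h0
    rw [hder, eval_mul, h0, mul_zero] at h
    exact h rfl
  rcases Nat.even_or_odd (d + 1) with he | ho
  · obtain ⟨M1, hM1⟩ := even_case (monic_Q (lift 0 a)) (by rw [natDegree_Q]; omega)
      (by rw [natDegree_Q]; exact he)
    obtain ⟨M2, hM2⟩ := even_case (monic_Q (lift 0 b)) (by rw [natDegree_Q]; omega)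
      (by rw [natDegree_Q]; exact he)
    set k := max (max M1 M2) 0 + 1 with hk
    have k1 : M1 < k := by
      have h1 := le_max_left M1 M2
      have h2 := le_max_left (max M1 M2) 0
      linarith
    have k2 : M2 < k := by
      have h1 := le_max_right M1 M2
      have h2 := le_max_left (max M1 M2) 0
      linarith
    have k0 : 0 < k := by
      have h2 := le_max_right (max M1 M2) 0
      linarith
    have key : ∀ c : Fin d → ℝ, c ∈ R4τ τ → (∀ x, 0 < (Q (lift 0 c) + C k).eval x) →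
        lift k c ∈ R4τ (Fin.cons (0, 0) τ : Fin (d + 1) → ℕ × ℕ) := by
      intro c hc hx
      rw [← Q_lift] at hx
      refine lift_mem hc k0.ne' (fun x h0 => absurd h0 (hx x).ne') ?_
      have e1 : {x : ℝ | 0 < x ∧ (D (lift k c) 0).eval x = 0} = ∅ := by
        rw [Set.eq_empty_iff_forall_notMem]
        rintro x ⟨_, h⟩
        exact (hx x).ne' h
      have e2 : {x : ℝ | x < 0 ∧ (D (lift k c) 0).eval x = 0} = ∅ := by
        rw [Set.eq_empty_iff_forall_notMem]
        rintro x ⟨_, h⟩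
        exact (hx x).ne' h
      unfold pos neg
      rw [e1, e2, Set.ncard_empty]
    exact ⟨(0, 0), k, key a ha (hM1 k k1), key b hb (hM2 k k2)⟩
  · obtain ⟨M1, hM1⟩ := odd_case (monic_Q (lift 0 a)) (by rw [natDegree_Q]; exact ho)
      (by rw [natDegree_Q]; omega)
    obtain ⟨M2, hM2⟩ := odd_case (monic_Q (lift 0 b)) (by rw [natDegree_Q]; exact ho)
      (by rw [natDegree_Q]; omega)
    set k := min (min M1 M2) 0 - 1 with hk
    have k1 : k < M1 := by
      have h1 := min_le_left M1 M2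
      have h2 := min_le_left (min M1 M2) 0
      linarith
    have k2 : k < M2 := by
      have h1 := min_le_right M1 M2
      have h2 := min_le_left (min M1 M2) 0
      linarith
    have k0 : k < 0 := by
      have h2 := min_le_right (min M1 M2) 0
      linarith
    have key : ∀ c : Fin d → ℝ, c ∈ R4τ τ →
        ((∃ x, 0 < x ∧ (Q (lift 0 c) + C k).eval x = 0) ∧
        (∀ x, (Q (lift 0 c) + C k).eval x = 0 →
          0 < x ∧ (derivative (Q (lift 0 c))).eval x ≠ 0) ∧
        (∀ x y, (Q (lift 0 c) + C k).eval x = 0 → (Q (lift 0 c) + C k).eval y = 0 → x = y)) →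
        lift k c ∈ R4τ (Fin.cons (1, 0) τ : Fin (d + 1) → ℕ × ℕ) := by
      rintro c hc ⟨⟨r, hr, hr0⟩, h2, h3⟩
      rw [← Q_lift] at h2 h3 hr0
      refine lift_mem hc k0.ne
        (fun x h0 => ⟨(h2 x h0).1.ne', hder0 c x (h2 x h0).2⟩) ?_
      have e1 : {x : ℝ | 0 < x ∧ (D (lift k c) 0).eval x = 0} = {r} := by
        ext x
        refine ⟨fun h => h3 x r h.2 hr0, ?_⟩
        rintro rfl
        exact ⟨hr, hr0⟩
      have e2 : {x : ℝ | x < 0 ∧ (D (lift k c) 0).eval x = 0} = ∅ := by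
        rw [Set.eq_empty_iff_forall_notMem]
        rintro x ⟨h1, h⟩
        exact absurd h1 (not_lt.mpr (h2 x h).1.le)
      unfold pos neg
      rw [e1, e2, Set.ncard_empty, Set.ncard_singleton]
    exact ⟨(1, 0), k, key a ha (hM1 k k1), key b hb (hM2 k k2)⟩

theorem eval_D0 (c : Fin 3 → ℝ) (x : ℝ) :
    (D c 0).eval x = x ^ 3 + c 2 * x ^ 2 + c 1 * x + c 0 := by
  simp [D, Q, Fin.sum_univ_three]
  ring

theorem eval_D1 (c : Fin 3 → ℝ) (x : ℝ) :
    (D c 1).eval x = 3 * x ^ 2 + 2 * c 2 * x + c 1 := by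
  simp [D, Q, Fin.sum_univ_three]
  ring

theorem eval_D2 (c : Fin 3 → ℝ) (x : ℝ) :
    (D c 2).eval x = 6 * x + 2 * c 2 := by
  simp [D, Q, Fin.sum_univ_three]
  ring

theorem eval_D3 (c : Fin 3 → ℝ) (x : ℝ) :
    (D c 3).eval x = 6 := by
  simp [D, Q, Fin.sum_univ_three]
  try norm_num

/-- the cubic `x ^ 3 - 15 / 4 x ^ 2 + 9 / 2 x + k` -/
noncomputable def cub (k : ℝ) : Fin 3 → ℝ := ![k, 9 / 2, -15 / 4]

/-- the root counts of the cubics used -/
def τ3 : Fin 3 → ℕ × ℕ := ![(1, 0), (2, 0), (1, 0)]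

theorem cub_mem {k : ℝ} (hk : k ≠ 0)
    (h1 : ∃ r : ℝ, 0 < r ∧ r ^ 3 + -15 / 4 * r ^ 2 + 9 / 2 * r + k = 0)
    (h2 : ∀ x : ℝ, x ^ 3 + -15 / 4 * x ^ 2 + 9 / 2 * x + k = 0 →
      0 < x ∧ x ≠ 1 ∧ x ≠ 3 / 2)
    (h3 : ∀ x y : ℝ, x ^ 3 + -15 / 4 * x ^ 2 + 9 / 2 * x + k = 0 →
      y ^ 3 + -15 / 4 * y ^ 2 + 9 / 2 * y + k = 0 → x = y) :
    cub k ∈ R4τ τ3 := by
  have c0 : cub k 0 = k := rfl
  have c1 : cub k 1 = 9 / 2 := rfl
  have c2 : cub k 2 = -15 / 4 := rfl
  have d1 : ∀ x : ℝ, 3 * x ^ 2 + 2 * (-15 / 4) * x + 9 / 2 = 0 ↔ x = 1 ∨ x = 3 / 2 := by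
    intro x
    constructor
    · intro h
      have : (x - 1) * (x - 3 / 2) = 0 := by linarith
      rcases mul_eq_zero.mp this with h | h
      · left; linarith
      · right; linarith
    · rintro (rfl | rfl) <;> norm_num
  have d2 : ∀ x : ℝ, 6 * x + 2 * (-15 / 4) = 0 ↔ x = 5 / 4 := by
    intro x
    constructor
    · intro h; linarith
    · rintro rfl; norm_num
  obtain ⟨r, hr, hr0⟩ := h1
  refine ⟨⟨fun j => ?_, fun l hl x hx => ?_⟩, fun l => ?_⟩
  · fin_cases j
    · exact hk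
    · show (9 / 2 : ℝ) ≠ 0
      norm_num
    · show (-15 / 4 : ℝ) ≠ 0
      norm_num
  · rcases l with _ | _ | _ | l
    · rw [eval_D0, c0, c1, c2] at hx
      obtain ⟨g1, g2, g3⟩ := h2 x hx
      refine ⟨g1.ne', ?_⟩
      rw [eval_D1, c1, c2]
      intro h
      rcases (d1 x).mp h with h | h
      · exact g2 h
      · exact g3 h
    · rw [eval_D1, c1, c2, d1] at hx
      rw [eval_D2, c2]
      rcases hx with rfl | rfl <;> norm_num
    · rw [eval_D2, c2, d2] at hx
      rw [eval_D3, hx]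
      norm_num
    · omega
  · fin_cases l
    · have e1 : {x : ℝ | 0 < x ∧ (D (cub k) 0).eval x = 0} = {r} := by
        ext x
        simp only [Set.mem_ofPred_eq, Set.mem_singleton_iff, eval_D0, c0, c1, c2]
        refine ⟨fun h => h3 x r h.2 hr0, ?_⟩
        rintro rfl
        exact ⟨hr, hr0⟩
      have e2 : {x : ℝ | x < 0 ∧ (D (cub k) 0).eval x = 0} = ∅ := by
        rw [Set.eq_empty_iff_forall_notMem]
        rintro x ⟨g1, h⟩
        rw [eval_D0, c0, c1, c2] at h
        exact absurd g1 (not_lt.mpr (h2 x h).1.le)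
      show (pos (cub k) 0, neg (cub k) 0) = (1, 0)
      unfold pos neg
      rw [e1, e2, Set.ncard_empty, Set.ncard_singleton]
    · have e1 : {x : ℝ | 0 < x ∧ (D (cub k) 1).eval x = 0} = {1, 3 / 2} := by
        ext x
        simp only [Set.mem_ofPred_eq, Set.mem_insert_iff, Set.mem_singleton_iff, eval_D1, c1,
          c2, d1]
        refine ⟨fun h => h.2, fun h => ⟨?_, h⟩⟩
        rcases h with rfl | rfl <;> norm_num
      have e2 : {x : ℝ | x < 0 ∧ (D (cub k) 1).eval x = 0} = ∅ := by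
        rw [Set.eq_empty_iff_forall_notMem]
        rintro x ⟨g1, h⟩
        rw [eval_D1, c1, c2, d1] at h
        rcases h with rfl | rfl <;> norm_num at g1
      show (pos (cub k) 1, neg (cub k) 1) = (2, 0)
      unfold pos neg
      rw [e1, e2, Set.ncard_empty, Set.ncard_pair (by norm_num)]
    · have e1 : {x : ℝ | 0 < x ∧ (D (cub k) 2).eval x = 0} = {5 / 4} := by
        ext x
        simp only [Set.mem_ofPred_eq, Set.mem_singleton_iff, eval_D2, c2, d2]
        refine ⟨fun h => h.2, fun h => ⟨?_, h⟩⟩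
        rw [h]; norm_num
      have e2 : {x : ℝ | x < 0 ∧ (D (cub k) 2).eval x = 0} = ∅ := by
        rw [Set.eq_empty_iff_forall_notMem]
        rintro x ⟨g1, h⟩
        rw [eval_D2, c2, d2] at h
        rw [h] at g1
        norm_num at g1
      show (pos (cub k) 2, neg (cub k) 2) = (1, 0)
      unfold pos neg
      rw [e1, e2, Set.ncard_empty, Set.ncard_singleton]

theorem cub_mem1 : cub (-1) ∈ R4τ τ3 := by
  have hlt : ∀ x : ℝ, x ^ 3 + -15 / 4 * x ^ 2 + 9 / 2 * x + -1 = 0 → x < 3 / 4 := by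
    intro x hx
    by_contra h
    have h' : 0 ≤ x - 3 / 4 := by linarith
    have := mul_nonneg (sq_nonneg (x - 3 / 2)) h'
    nlinarith
  refine cub_mem (by norm_num) ?_ ?_ ?_
  · have hc : Continuous (fun x : ℝ => x ^ 3 + -15 / 4 * x ^ 2 + 9 / 2 * x + -1) := by fun_prop
    obtain ⟨z, hz, hz0⟩ := intermediate_value_Ioo (by norm_num : (0 : ℝ) ≤ 1) hc.continuousOn
      (show (0 : ℝ) ∈ Set.Ioo _ _ by constructor <;> norm_num)
    exact ⟨z, hz.1, hz0⟩
  · intro x hx
    have h1 := hlt x hx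
    refine ⟨?_, by linarith, by linarith⟩
    by_contra h
    have h' : 0 ≤ -x := by linarith
    nlinarith [mul_nonneg h' (sq_nonneg x), sq_nonneg x]
  · intro x y hx hy
    have h1 := hlt x hx
    have h2 := hlt y hy
    have h3 : (x - y) * (x ^ 2 + x * y + y ^ 2 - 15 / 4 * (x + y) + 9 / 2) = 0 := by
      linear_combination hx - hy
    rcases mul_eq_zero.mp h3 with h | h
    · linarith
    · exfalso
      have u1 : 0 < 3 / 4 - x := by linarith
      have u2 : 0 < 3 / 4 - y := by linarith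
      nlinarith [mul_pos u1 u2, sq_nonneg (3 / 4 - x), sq_nonneg (3 / 4 - y)]

theorem cub_mem2 : cub (-2) ∈ R4τ τ3 := by
  have hlt : ∀ x : ℝ, x ^ 3 + -15 / 4 * x ^ 2 + 9 / 2 * x + -2 = 0 → 7 / 4 < x := by
    intro x hx
    by_contra h
    have h' : 0 ≤ 7 / 4 - x := by linarith
    have := mul_nonneg (sq_nonneg (x - 1)) h'
    nlinarith
  refine cub_mem (by norm_num) ?_ ?_ ?_
  · have hc : Continuous (fun x : ℝ => x ^ 3 + -15 / 4 * x ^ 2 + 9 / 2 * x + -2) := by fun_prop
    obtain ⟨z, hz, hz0⟩ := intermediate_value_Ioo (by norm_num : (0 : ℝ) ≤ 3) hc.continuousOn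
      (show (0 : ℝ) ∈ Set.Ioo _ _ by constructor <;> norm_num)
    exact ⟨z, hz.1, hz0⟩
  · intro x hx
    have h1 := hlt x hx
    exact ⟨by linarith, fun h => by linarith, fun h => by linarith⟩
  · intro x y hx hy
    have h1 := hlt x hx
    have h2 := hlt y hy
    have h3 : (x - y) * (x ^ 2 + x * y + y ^ 2 - 15 / 4 * (x + y) + 9 / 2) = 0 := by
      linear_combination hx - hy
    rcases mul_eq_zero.mp h3 with h | h
    · linarith
    · exfalso
      have u1 : 0 < x - 7 / 4 := by linarith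
      have u2 : 0 < y - 7 / 4 := by linarith
      nlinarith [mul_pos u1 u2, sq_nonneg (x - 7 / 4), sq_nonneg (y - 7 / 4)]

theorem sep_three : Sep 3 := by
  refine ⟨τ3, cub (-1), cub (-2), cub_mem1, cub_mem2, fun T hT hc ha hb => ?_⟩
  -- the smaller critical point
  let r : (Fin 3 → ℝ) → ℝ := fun c => (-c 2 - Real.sqrt (c 2 ^ 2 - 3 * c 1)) / 3
  let g : (Fin 3 → ℝ) → ℝ := fun c => r c ^ 3 + c 2 * r c ^ 2 + c 1 * r c + c 0
  have hr : Continuous r := by fun_prop
  have hg : Continuous g := by fun_prop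
  have hne : ∀ c ∈ T, g c ≠ 0 := by
    intro c hcT h0
    obtain ⟨⟨-, hR⟩, hτ⟩ := hT hcT
    have h1 : pos c 1 = 2 := congrArg Prod.fst (hτ 1)
    obtain ⟨x, hx⟩ : {x : ℝ | 0 < x ∧ (D c 1).eval x = 0}.Nonempty := by
      rw [Set.nonempty_iff_ne_empty]
      intro h
      unfold pos at h1
      rw [h, Set.ncard_empty] at h1
      omega
    have hx1 := hx.2
    rw [eval_D1] at hx1
    have hdisc : 0 ≤ c 2 ^ 2 - 3 * c 1 := by nlinarith [sq_nonneg (3 * x + c 2)]
    have hs := Real.sq_sqrt hdisc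
    have hcrit : (D c 1).eval (r c) = 0 := by
      rw [eval_D1]
      simp only [r]
      nlinarith
    have h2 := hR 0 (by norm_num) (r c) (by rw [eval_D0]; exact h0)
    exact h2.2 hcrit
  have e1 : Real.sqrt ((-15 / 4 : ℝ) ^ 2 - 3 * (9 / 2)) = 3 / 4 := by
    rw [show ((-15 / 4 : ℝ) ^ 2 - 3 * (9 / 2)) = (3 / 4) ^ 2 by norm_num]
    exact Real.sqrt_sq (by norm_num)
  have r1 : ∀ k, r (cub k) = 1 := by
    intro k
    show (-(-15 / 4 : ℝ) - Real.sqrt ((-15 / 4 : ℝ) ^ 2 - 3 * (9 / 2))) / 3 = 1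
    rw [e1]
    norm_num
  have g1 : g (cub (-1)) = 3 / 4 := by
    simp only [g, r1]
    show (1 : ℝ) ^ 3 + -15 / 4 * 1 ^ 2 + 9 / 2 * 1 + -1 = 3 / 4
    norm_num
  have g2 : g (cub (-2)) = -1 / 4 := by
    simp only [g, r1]
    show (1 : ℝ) ^ 3 + -15 / 4 * 1 ^ 2 + 9 / 2 * 1 + -2 = -1 / 4
    norm_num
  obtain ⟨c, hcT, hc0⟩ := hc.intermediate_value hb ha hg.continuousOn
    (show (0 : ℝ) ∈ Set.Icc _ _ by rw [g1, g2]; constructor <;> norm_num)
  exact hne c hcT hc0

theorem sep (d : ℕ) (hd : 3 ≤ d) : Sep d := by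
  induction d, hd using Nat.le_induction with
  | base => exact sep_three
  | succ d hd ih => exact sep_step (by omega) ih

/-- For every degree `d ≥ 3` there is a tuple `τ` of root counts such that the set of the
polynomials realising `τ` is nonempty and not connected. -/
theorem result (d : ℕ) (hd : 3 ≤ d) :
    ∃ τ : Fin d → ℕ × ℕ, (R4τ τ).Nonempty ∧ ¬ IsPreconnected (R4τ τ) := by
  obtain ⟨τ, a, b, ha, hb, hT⟩ := sep d hd
  exact ⟨τ, ⟨a, ha⟩, fun h => hT _ subset_rfl h ha hb⟩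

end Pool.Agent.Results.MP_5207c4_ag.RootCounts
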